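import Pool.Agent.Helper53.KC.Goals

set_option autoImplicit false

namespace Pool.Agent.Helper82.KC

open Finset Pool.Agent.Helper53.KC

theorem bl : BlStmt := by
  intro m u y huy hy hym
  have hm : (0 : ℝ) < m := lt_of_lt_of_le hy hym
  have hmn : 0 < m := by exact_mod_cast hm
  have hum : u ≤ m := by exact_mod_cast le_trans huy hym
  set x : ℝ := y / m with hx
  have hx0 : 0 < x := div_pos hy hm
  have hx1 : x ≤ 1 := (div_le_one hm).mpr hym
  have hxy : 0 < x ^ y := Real.rpow_pos_of_pos hx0 y
  have h1 : (Pool.Agent.Helper53.KC.bl m u : ℝ) * x ^ y ≤ Real.exp y := by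
    calc (Pool.Agent.Helper53.KC.bl m u : ℝ) * x ^ y
        = ∑ j ∈ range (u + 1), (m.choose j : ℝ) * x ^ y := by
          unfold Pool.Agent.Helper53.KC.bl
          push_cast
          rw [Finset.sum_mul]
      _ ≤ ∑ j ∈ range (u + 1), (m.choose j : ℝ) * x ^ j := by
          refine Finset.sum_le_sum fun j hj => ?_
          refine mul_le_mul_of_nonneg_left ?_ (Nat.cast_nonneg _)
          have hj' : j ≤ u := by
            have := Finset.mem_range.mp hj
            omega
          have hjy : (j : ℝ) ≤ y := le_trans (by exact_mod_cast hj') huy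
          rw [← Real.rpow_natCast x j]
          exact Real.rpow_le_rpow_of_exponent_ge hx0 hx1 hjy
      _ ≤ ∑ j ∈ range (m + 1), (m.choose j : ℝ) * x ^ j := by
          refine Finset.sum_le_sum_of_subset_of_nonneg ?_ ?_
          · intro j hj
            rw [Finset.mem_range] at hj ⊢
            omega
          · intro j _ _
            positivity
      _ = (x + 1) ^ m := by
          rw [add_pow]
          refine Finset.sum_congr rfl fun j _ => ?_
          rw [one_pow, mul_one, mul_comm]
      _ ≤ (Real.exp x) ^ m := by
          refine pow_le_pow_left₀ (by positivity) (Real.add_one_le_exp x) m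
      _ = Real.exp y := by
          rw [← Real.exp_nat_mul, hx]
          congr 1
          field_simp
  have h2 : (Real.exp 1 * m / y) ^ y = Real.exp y / x ^ y := by
    have e1 : Real.exp 1 * m / y = Real.exp 1 / x := by
      rw [hx]
      field_simp
    rw [e1, Real.div_rpow (Real.exp_pos 1).le hx0.le, ← Real.exp_mul, one_mul]
  rw [h2, le_div_iff₀ hxy]
  exact h1

end Pool.Agent.Helper82.KC
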